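import Pool.Agent.Helper65.TU.Stmts

/-! MP_5c2ead_an, row GL1: on a weakly compact set of `C(S)` the `L_1(ν)` distance is weakly
continuous. -/

open Set Filter Topology MeasureTheory

namespace Pool.Agent.Helper65.TU

universe u

namespace S56

variable {S : Type u} [TopologicalSpace S] [CompactSpace S] [T2Space S] [MeasurableSpace S]
  [BorelSpace S]

theorem cint (ν : Measure S) [IsFiniteMeasure ν] (f : C(S, ℝ)) : Integrable (fun t => f t) ν :=
  Integrable.of_bound f.continuous.aestronglyMeasurable ‖f‖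
    (Filter.Eventually.of_forall fun t => f.norm_coe_le_norm t)

/-- the functional `y ↦ ∫ u y dν` -/
noncomputable def fn (ν : Measure S) [IsFiniteMeasure ν] (a : C(S, ℝ)) : C(S, ℝ) →L[ℝ] ℝ :=
  LinearMap.mkContinuous
    { toFun := fun y => ∫ t, (a * y) t ∂ν
      map_add' := fun y z => by
        rw [← integral_add (cint ν (a * y)) (cint ν (a * z))]
        refine integral_congr_ae (Filter.Eventually.of_forall fun t => ?_)
        simp only [ContinuousMap.mul_apply, ContinuousMap.add_apply]
        ring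
      map_smul' := fun c y => by
        rw [RingHom.id_apply, smul_eq_mul, ← integral_const_mul]
        refine integral_congr_ae (Filter.Eventually.of_forall fun t => ?_)
        simp only [ContinuousMap.mul_apply, ContinuousMap.smul_apply, smul_eq_mul]
        ring }
    (‖a‖ * ν.real univ) (fun y => by
      have h1 : ‖∫ t, (a * y) t ∂ν‖ ≤ (‖a‖ * ‖y‖) * ν.real univ := by
        refine norm_integral_le_of_norm_le_const (Filter.Eventually.of_forall fun t => ?_)
        rw [ContinuousMap.mul_apply, norm_mul]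
        exact mul_le_mul (a.norm_coe_le_norm t) (y.norm_coe_le_norm t) (norm_nonneg _)
          (norm_nonneg _)
      calc _ ≤ (‖a‖ * ‖y‖) * ν.real univ := h1
        _ = ‖a‖ * ν.real univ * ‖y‖ := by ring)

theorem fn_apply (ν : Measure S) [IsFiniteMeasure ν] (a y : C(S, ℝ)) :
    fn ν a y = ∫ t, a t * y t ∂ν := rfl

theorem fn_symm (ν : Measure S) [IsFiniteMeasure ν] (a y : C(S, ℝ)) : fn ν a y = fn ν y a := by
  rw [fn_apply, fn_apply]
  refine integral_congr_ae (Filter.Eventually.of_forall fun t => ?_)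
  simp only [mul_comm]

theorem bdd {X : Type u} [NormedAddCommGroup X] [NormedSpace ℝ X] (y : ℕ → X) (z : X)
    (h : ∀ f : X →L[ℝ] ℝ, Tendsto (fun k => f (y k)) atTop (𝓝 (f z))) :
    ∃ M, ∀ k, ‖y k‖ ≤ M := by
  have h1 : ∀ f : StrongDual ℝ X, ∃ C, ∀ k, ‖NormedSpace.inclusionInDoubleDual ℝ X (y k) f‖ ≤ C := by
    intro f
    obtain ⟨C, hC⟩ := (h f).norm.bddAbove_range
    refine ⟨C, fun k => ?_⟩
    exact hC (mem_range_self k)
  obtain ⟨M, hM⟩ := banach_steinhaus h1
  refine ⟨M, fun k => ?_⟩
  have h2 := hM k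
  have h3 : ‖NormedSpace.inclusionInDoubleDual ℝ X (y k)‖ = ‖y k‖ :=
    (NormedSpace.inclusionInDoubleDualLi ℝ).norm_map (y k)
  rwa [h3] at h2

end S56

open S56

theorem st_GL1 (hES : ST_ES.{u}) : ST_GL1.{u} := by
  classical
  intro S _ _ _ _ _ ν hν K hK x hx ε hε
  by_contra hcon
  push Not at hcon
  choose Y hYK hYg hYe using hcon
  have hpos : ∀ n : ℕ, (0 : ℝ) < 1 / ((n : ℝ) + 1) := fun n => by positivity
  let G : ℕ → Finset (C(S, ℝ) →L[ℝ] ℝ) := fun n => Nat.rec ∅
    (fun n g => insert (fn ν (Y g (1 / ((n : ℝ) + 1)) (hpos n) - x)) g) n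
  let y : ℕ → C(S, ℝ) := fun n => Y (G n) (1 / ((n : ℝ) + 1)) (hpos n)
  have hG : ∀ n, G (n + 1) = insert (fn ν (y n - x)) (G n) := fun n => rfl
  have hmem : ∀ k n, k < n → fn ν (y k - x) ∈ G n := by
    intro k n hkn
    induction n with
    | zero => omega
    | succ n ih =>
      rw [hG]
      rcases Nat.lt_succ_iff_lt_or_eq.1 hkn with h | h
      · exact Finset.mem_insert_of_mem (ih h)
      · rw [h]; exact Finset.mem_insert_self _ _
  have hyK : ∀ n, y n ∈ K := fun n => hYK _ _ _
  have hyg : ∀ k n, k < n → |fn ν (y k - x) (y n) - fn ν (y k - x) x| < 1 / ((n : ℝ) + 1) :=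
    fun k n hkn => hYg _ _ _ _ (hmem k n hkn)
  have hye : ∀ n, ε ≤ ∫ t, |y n t - x t| ∂ν := fun n => hYe _ _ _
  obtain ⟨φ, hφ, z, hz, hconv⟩ := hES C(S, ℝ) K hK y hyK
  -- step A
  have hA : ∀ k, fn ν (y k - x) z = fn ν (y k - x) x := by
    intro k
    have h1 := hconv (fn ν (y k - x))
    have h2 : Tendsto (fun j => fn ν (y k - x) (y (φ j))) atTop (𝓝 (fn ν (y k - x) x)) := by
      rw [tendsto_iff_norm_sub_tendsto_zero]
      refine squeeze_zero_norm' ?_ (tendsto_one_div_add_atTop_nhds_zero_nat (𝕜 := ℝ))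
      filter_upwards [Filter.eventually_gt_atTop k] with j hj
      have h3 : j ≤ φ j := hφ.id_le j
      have h4 := hyg k (φ j) (lt_of_lt_of_le hj h3)
      rw [norm_norm, Real.norm_eq_abs]
      refine h4.le.trans ?_
      have h5 : (j : ℝ) ≤ φ j := by exact_mod_cast h3
      exact one_div_le_one_div_of_le (by positivity) (by linarith)
    exact tendsto_nhds_unique h1 h2
  -- step B
  have hB : fn ν (z - x) z = fn ν (z - x) x := by
    have h1 : ∀ k, fn ν (z - x) (y k) = fn ν (z - x) x := by
      intro k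
      have h2 : fn ν (y k - x) (z - x) = 0 := by
        rw [map_sub, hA k, sub_self]
      rw [fn_symm, map_sub, sub_eq_zero] at h2
      exact h2
    have h3 := hconv (fn ν (z - x))
    have h4 : Tendsto (fun j => fn ν (z - x) (y (φ j))) atTop (𝓝 (fn ν (z - x) x)) := by
      simp only [h1]
      exact tendsto_const_nhds
    exact tendsto_nhds_unique h3 h4
  have hC : ∫ t, (z - x) t * (z - x) t ∂ν = 0 := by
    have h1 : fn ν (z - x) (z - x) = 0 := by rw [map_sub, hB, sub_self]
    rwa [fn_apply] at h1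
  have hae : ∀ᵐ t ∂ν, z t = x t := by
    have h1 := (integral_eq_zero_iff_of_nonneg (fun t => mul_self_nonneg ((z - x) t))
      (cint ν ((z - x) * (z - x)))).1 hC
    filter_upwards [h1] with t ht
    have h2 : (z - x) t * (z - x) t = 0 := ht
    have h3 := mul_self_eq_zero.1 h2
    rw [ContinuousMap.sub_apply] at h3
    linarith
  -- step D
  obtain ⟨M, hM⟩ := bdd (fun k => y (φ k)) z hconv
  have hlim : Tendsto (fun j => ∫ t, |y (φ j) t - z t| ∂ν) atTop (𝓝 (∫ _t : S, (0 : ℝ) ∂ν)) := by
    refine tendsto_integral_of_dominated_convergence (fun _ => M + ‖z‖) ?_ (integrable_const _)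
      ?_ ?_
    · intro j
      exact ((y (φ j)).continuous.sub z.continuous).abs.aestronglyMeasurable
    · intro j
      refine Filter.Eventually.of_forall fun t => ?_
      rw [Real.norm_eq_abs, abs_abs]
      have h1 := (y (φ j)).norm_coe_le_norm t
      have h2 := z.norm_coe_le_norm t
      rw [Real.norm_eq_abs] at h1 h2
      calc |y (φ j) t - z t| ≤ |y (φ j) t| + |z t| := abs_sub _ _
        _ ≤ M + ‖z‖ := add_le_add (h1.trans (hM j)) h2
    · refine Filter.Eventually.of_forall fun t => ?_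
      have h1 := hconv (ContinuousMap.evalCLM ℝ t)
      have h2 : Tendsto (fun j => y (φ j) t) atTop (𝓝 (z t)) := h1
      have h3 := (h2.sub_const (z t)).abs
      rwa [sub_self, abs_zero] at h3
  rw [integral_zero] at hlim
  have heq : ∀ j, ∫ t, |y (φ j) t - z t| ∂ν = ∫ t, |y (φ j) t - x t| ∂ν := by
    intro j
    refine integral_congr_ae ?_
    filter_upwards [hae] with t ht
    rw [ht]
  simp only [heq] at hlim
  have h1 := ge_of_tendsto' hlim (fun j => hye (φ j))
  linarith

end Pool.Agent.Helper65.TU
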